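import Pool.Agent.Run7.h371.FK.Ro
import Pool.Agent.Run7.h1.SR.PD

/-!
# Poincaré duality groups which act on trees with abelian edge groups

Problem `MP_c13a79_gt`, question Q1 (the assembly map for Poincaré duality groups).

`C` is any class of groups with the closure properties `ClosedE C` which contains the metabelian groups
and satisfies `AcylR C`, the fibred form of the closure property for acylindrical actions on trees. All
this is published for the class of the groups whose wreath products with finite groups satisfy the K- and
L-theoretic Farrell-Jones conjecture with coefficients: metabelian groups are due to Wegner; Knopf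
proves that a finitely generated group `Q` with an acylindrical action on a tree satisfies the
conjecture relative to the family of the virtually cyclic groups and the subgroups of the vertex
stabilizers, and `AcylR` follows by pulling this back along a surjection `G → Q` and by transitivity.
`Iso` is any property of groups that all Poincaré duality groups in `C` have; for this class one may
take: the assembly map `L_*(Bπ) → L_*(ℤπ)` is an isomorphism.

Let the group `G` act on a tree `T` with vertex stabilizers `G_v` in `C`. Neither `G` nor the vertex and
edge groups need be finitely generated or torsion-free, and the quotient need not be finite. The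
edge groups at `v` are the stabilizers `G_v ∩ G_a` for the neighbours `a` of `v`. The theorem says that
all Poincaré duality groups `π ≤ G` (for instance `π = G`) have the property `Iso` in each of the
following cases.

* (1) The edge groups at each vertex commute with each other (so they generate an abelian subgroup of
  `G_v`), for instance the edge groups are central in the vertex groups.
* (2) The edge groups are abelian, and the centralizers in `G_v` of the nontrivial elements of the edge
  groups at `v` are abelian. This holds for all abelian edge groups if the vertex groups are
  commutative transitive, for instance torsion-free hyperbolic, or torsion-free and hyperbolic relative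
  to abelian groups.
* (3) The edge groups are abelian, their elements have unique roots in the vertex groups, and two edge
  groups at a vertex are commensurable or their intersection has at most `n` elements. Unique roots
  exist in bi-orderable groups (so in right-angled Artin groups and pure braid groups), torsion-free
  nilpotent groups and torsion-free hyperbolic groups.
* (4) The edge groups have finite index in the vertex groups, the vertex groups are virtually abelian,
  and the elements of `G_v` with finitely many conjugates in `G_v` commute (for instance, `G_v` is
  a crystallographic group).
* (0) There is an equivariant equivalence relation `r v` on the neighbours of each vertex `v` (`LR`); it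
  gives a decomposition of `T` into subtrees, the cylinders (`Cyl`). For some `k` and `n` at most `n`
  elements of `G` fix a chain of `k` cylinders (`Acy`), that is, vertices `v_0, ..., v_k` such that
  `v_i` and `v_{i+1}` are different vertices of the cylinder `y_i`, where `y_i` and `y_{i+1}` are
  different. For each cylinder `y`, either its stabilizer is in `C`, or there is an equivariant
  family of subgroups `Q v a`, for the edges `(v, a)` of `y`, such that (`Fe`): `Q v a` consists of
  elements of `G_v` which preserve `y`; it depends only on `v` and `y`; if `x` is in `Q v a` and fixes
  `a`, then `x` is in `Q a v`; `Q v a` has finite index in the edge group, i.e. the intersection has; the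
  group `Q v a` is abelian, or its commutator subgroup meets the edge group trivially and it is the
  kernel of a homomorphism from the stabilizer of `v` and `y` to a group in `C`.

For instance `π` may be the fundamental group of a closed aspherical manifold which is decomposed along
`π₁`-injective tori or flat manifolds of codimension one, with fundamental groups of the pieces in `C` for
which one of these conditions holds. If a Poincaré duality group of dimension `n` acts on a tree without
a fixed point, then some edge group has cohomological dimension `n - 1`, so that abelian edge groups are
the simplest case in all dimensions. The results on amalgamated products of Cappell require edge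
groups which are closed under square roots in the vertex groups; this is not assumed here, and in (4) and
in (1) it is usually not the case.

That the groups `G` are in `C` is the theorem `MP_8f66f0_al.AbelianSplittings` of helper371, handed in
for the question on Whitehead groups (with an outline of the proof and the cases known before); here it
is applied to Poincaré duality groups.
-/

set_option autoImplicit false

namespace Pool.Agent.Results.MP_c13a79_gt.AbelianSplittings

open Subgroup
open Pool.Agent.Y110.FJ (ClosedE)
open Pool.Agent.N509.TK (LR Cyl cy Pres)
open Run7.h371.FJ (AcylR)
open Run7.h371.FK (Eg Fe Acy Fcc)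
open Pool.Agent.Run7.h1.SR

theorem result (C : ∀ (G : Type) [Group G], Prop) (hC : ClosedE C)
    (hM : ∀ (G : Type) [Group G], derivedSeries G 2 = ⊥ → C G) (hA : AcylR C)
    (Iso : ∀ (π : Type) [Group π], Prop)
    (hI : ∀ (π : Type) [Group π], C π → IsPD π → Iso π)
    {G V : Type} [Group G] [MulAction G V] (T : SimpleGraph V) (hT : T.IsTree)
    (hact : ∀ (g : G) (u v : V), T.Adj u v → T.Adj (g • u) (g • v))
    (hV : ∀ v : V, C ↥(MulAction.stabilizer G v)) :
    -- (0) the general theorem
    (∀ (r : V → V → V → Prop) (k n : ℕ) (Q : V → V → Subgroup G), LR G T r → Acy G T r k n →
      (∀ (g : G) (v a : V), T.Adj v a → ∀ x ∈ Q v a, g * x * g⁻¹ ∈ Q (g • v) (g • a)) →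
      (∀ y : Cyl T r, (∀ K : Subgroup G, (∀ g ∈ K, Pres hact y g) → C K) ∨
        ∀ (v a : V) (h : T.Adj v a), cy r h = y → Fe C T r Q v a) → PDSub Iso G) ∧
    -- (1) commuting edge groups
    ((∀ v a b, T.Adj v a → T.Adj v b → ∀ x ∈ Eg G v a, ∀ y ∈ Eg G v b, x * y = y * x) →
      PDSub Iso G) ∧
    ((∀ v a, T.Adj v a → ∀ x ∈ Eg G v a, ∀ y ∈ Eg G v a, x * y = y * x) →
      -- (2) abelian edge groups whose elements have abelian centralizers in the vertex groups
      ((∀ v a, T.Adj v a → ∀ x ∈ Eg G v a, x ≠ 1 → ∀ y z : G, y • v = v → z • v = v →
        y * x = x * y → z * x = x * z → y * z = z * y) → PDSub Iso G) ∧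
      -- (3) abelian edge groups whose elements have unique roots in the vertex groups
      (∀ n : ℕ, (∀ v a, T.Adj v a → ∀ x y : G, x • v = v → y • v = v → ∀ m : ℕ, m ≠ 0 →
          x ^ m = y ^ m → x ^ m ∈ Eg G v a → x = y) →
        (∀ v a b, T.Adj v a → T.Adj v b → a ≠ b → Commensurable (Eg G v a) (Eg G v b) ∨
          ∀ F : Finset G, (∀ g ∈ F, g ∈ Eg G v a ∧ g ∈ Eg G v b) → F.card ≤ n) → PDSub Iso G)) ∧
    -- (4) edge groups of finite index in virtually abelian vertex groups
    ((∀ v a, T.Adj v a →
        (MulAction.stabilizer G a).relIndex (MulAction.stabilizer G v) ≠ 0) →
      (∀ v : V, ∃ A : Subgroup G, A ≤ MulAction.stabilizer G v ∧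
        A.relIndex (MulAction.stabilizer G v) ≠ 0 ∧ ∀ x ∈ A, ∀ y ∈ A, x * y = y * x) →
      (∀ v : V, ∀ x y : G, Fcc (MulAction.stabilizer G v) x → Fcc (MulAction.stabilizer G v) y →
        x * y = y * x) → PDSub Iso G) :=
  ⟨fun _ k n Q hr hint heqv hE =>
      pd_sub hC hI (Run7.h371.FK.main hC hM hA hT hact hV hr k n hint Q heqv hE),
    fun h => pd_sub hC hI (Run7.h371.FK.commuting hC hM hA hT hact hV h),
    fun hab => ⟨fun h => pd_sub hC hI (Run7.h371.FK.centralizers hC hM hA hT hact hV hab h),
      fun n hU h => pd_sub hC hI (Run7.h371.FK.roots hC hM hA hT hact hV hab hU n h)⟩,
    fun hfi hva h => pd_sub hC hI (Run7.h371.FK.finiteIndex hC hM hA hT hact hfi hva h)⟩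

end Pool.Agent.Results.MP_c13a79_gt.AbelianSplittings
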