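import Pool.Agent.Run7.h909.TD.Trees
import Pool.Agent.Run7.h1.SR.PD

/-!
# Poincaré duality groups acting on complexes of dimension two and of nonpositive curvature

Problem `MP_c13a79_gt`, question Q1 (the assembly map for Poincaré duality groups).

Let `C` be a class of groups with the closure properties `ClosedE` (`C` contains the infinite cyclic group,
it is closed under subgroups, finite products, free products, overgroups of finite index and directed
colimits, and it satisfies the extension criterion). Suppose also `CatC C`: the class contains the groups
which act properly and cocompactly by isometries on a simply connected locally finite piecewise Euclidean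
complex of dimension two and of nonpositive curvature. All this is published for the class of the groups
whose wreath products with finite groups satisfy the K- and L-theoretic Farrell-Jones conjecture with
coefficients (Wegner for `CatC`). `Iso` is any property of groups that all Poincaré duality groups in `C`
have; for this class one may take: the assembly map `L_*(Bπ) → L_*(ℤπ)` is an isomorphism.

A piecewise Euclidean complex of dimension two is described by a graph `T`, by the set `F` of the closed
edge paths along which convex Euclidean polygons are glued in, by the lengths `ℓ` of the edges and by the
angles `w` of the polygons; the structure `Cx` contains Gromov's link condition. There may be infinitely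
many isometry types of polygons, and the complex is not supposed to be locally finite.

* `Main`: Let `G` act by isometries on a simply connected complex `X` of this kind such that each element
  fixing a vertex `x` has a power fixing a given neighbour of `x` (this holds if `X` is locally finite and
  also if the stabilizers are torsion groups). Suppose that for each vertex `x` there is a homomorphism
  from `G` to a group in `C` whose kernel meets the stabilizer of `x` in a finite group. Then all
  Poincaré duality groups in `G` have the property `Iso`. There is no cocompactness assumption.
* `Products`: Let `G` act on two trees and suppose that for all vertices `x` of the first and `y` of the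
  second tree the elements of the stabilizer of `x` and `y` have powers fixing given neighbours, and that
  there is a homomorphism from `G` to a group in `C` whose kernel meets the stabilizer of `x` and `y` in
  a finite group. Then all Poincaré duality groups in `G` have the property `Iso`.

The dimension of the Poincaré duality group is arbitrary: for instance it may be the fundamental group of a
closed aspherical manifold which acts on a complex of dimension two with infinite stabilizers, each of them
detected, up to finite kernels, by a homomorphism to a group in `C`. (If all stabilizers are finite, then the
dimension is at most two.)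

That the groups are in `C` is the theorem `MP_e40716_gt.TwoDimensionalComplexes` of helper909, handed in
for the K-theoretic conjecture for all groups and rings; here it is applied to Poincaré duality groups.
-/

set_option autoImplicit false

namespace Pool.Agent.Results.MP_c13a79_gt.TwoDimensionalComplexes

open Run7.h909.TD Pool.Agent.Run7.h1.SR
open Pool.Agent.Y110.FJ (ClosedE)
open SimpleGraph

variable (Iso : ∀ (π : Type) [Group π], Prop)

/-- actions on complexes of dimension two with a homomorphism controlling the stabilizers -/
def Main (C : ∀ (G : Type) [Group G], Prop) : Prop :=
  ∀ (G V : Type) [Group G] [MulAction G V] (T : SimpleGraph V) (F : Set (ℤ → V))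
    (ℓ : V → V → ℝ) (w : (ℤ → V) → ℝ),
    Cx T F ℓ w → SC T F → Ac G T F → Mi G T F ℓ w →
    (∀ x y : V, T.Adj x y → ∀ g : G, g • x = x → ∃ n : ℕ, 0 < n ∧ g ^ n • y = y) →
    (∀ x : V, ∃ (P : Type) (_ : Group P) (f : G →* P), C P ∧ {g : G | g • x = x ∧ f g = 1}.Finite) →
    PDSub Iso G

/-- actions on products of two trees with a homomorphism controlling the stabilizers -/
def Products (C : ∀ (G : Type) [Group G], Prop) : Prop :=
  ∀ (G V₁ V₂ : Type) [Group G] [MulAction G V₁] [MulAction G V₂] (T₁ : SimpleGraph V₁)
    (T₂ : SimpleGraph V₂), T₁.IsTree → T₂.IsTree →
    (∀ (g : G) (x y : V₁), T₁.Adj x y → T₁.Adj (g • x) (g • y)) →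
    (∀ (g : G) (x y : V₂), T₂.Adj x y → T₂.Adj (g • x) (g • y)) →
    (∀ (x : V₁) (y : V₂) (g : G), g • x = x → g • y = y →
      (∀ x', T₁.Adj x x' → ∃ n : ℕ, 0 < n ∧ g ^ n • x' = x') ∧
      ∀ y', T₂.Adj y y' → ∃ n : ℕ, 0 < n ∧ g ^ n • y' = y') →
    (∀ (x : V₁) (y : V₂), ∃ (P : Type) (_ : Group P) (f : G →* P), C P ∧
      {g : G | g • x = x ∧ g • y = y ∧ f g = 1}.Finite) → PDSub Iso G

/-- **The Poincaré duality groups in groups which act on complexes of dimension two and of nonpositive
curvature, without cocompactness, have the property `Iso`, if the stabilizers are controlled by
homomorphisms to groups in the class `C`.** -/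
theorem result (C : ∀ (G : Type) [Group G], Prop) (hC : ClosedE C) (hcat : CatC C)
    (hI : ∀ (π : Type) [Group π], C π → IsPD π → Iso π) :
    Main Iso C ∧ Products Iso C := by
  refine ⟨?_, ?_⟩
  · intro G V _ _ T F ℓ w hx hs hA hM hG h
    exact pd_sub hC hI (main hC hcat hx hs hA hM hG h)
  · intro G V₁ V₂ _ _ _ T₁ T₂ h1 h2 a1 a2 hg h
    exact pd_sub hC hI (trees hC hcat h1 h2 a1 a2 hg h)

end Pool.Agent.Results.MP_c13a79_gt.TwoDimensionalComplexes
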