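import Pool.Agent.Run7.h909.TT.MvA
import Pool.Agent.Run7.h1.SR.PD

/-!
# Poincaré duality groups acting on two trees

Problem `MP_c13a79_gt`, question Q1 (the assembly map for Poincaré duality groups).

`C` is any class of groups with the closure properties `ClosedE C` (it contains `ℤ`, is closed under
subgroups, finite products, free products, overgroups of finite index and directed colimits, and satisfies
the extension criterion) which contains the extensions of free groups of arbitrary rank by `ℤ` (`FbC C`)
and the groups acting properly and cocompactly on simply connected locally finite piecewise Euclidean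
complexes of dimension two and of nonpositive curvature (`CatC C`). All this is published for the class of
the groups whose wreath products with finite groups satisfy the K- and L-theoretic Farrell-Jones conjecture
with coefficients (Bartels, Lück, Reich, Wegner; Bestvina, Fujiwara, Wigglesworth and Brück, Kielak, Wu for
the extensions of free groups). `Iso` is any property of groups that all Poincaré duality groups in `C`
have; for this class one may take: the assembly map `L_*(Bπ) → L_*(ℤπ)` is an isomorphism.

* (1) Let `G` act on two trees. Suppose that for all vertices `x` of the first and `y` of the second tree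
  there is a homomorphism from `G` to a group in `C` which is injective on the group of the elements that
  fix `x` and `y`. Then all Poincaré duality groups `π ≤ G` have the property `Iso`. Nothing else is
  assumed: the trees need not be locally finite, the action on the product need not be cocompact, and the
  stabilizers may be arbitrarily large.
* (2) The same holds if `N` is a normal subgroup of `G` with `G / N` in `C`, and `G` acts on two trees
  such that no nontrivial element of `N` fixes vertices of both trees.
* (3) Let `ρ₁`, `ρ₂` be homomorphisms from `G` to `GL_2(R₁)`, `GL_2(R₂)`, where `R₁`, `R₂` are rings with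
  degree functions (minus discrete valuations). Suppose that for each `n` there is a homomorphism from `G`
  to a group in `C` which does not kill any `g ≠ 1` for which the entries of `ρ₁ g`, `ρ₂ g` have
  degrees at most `n` and the determinants have degree `0`. Then all Poincaré duality groups `π ≤ G`
  have the property `Iso`.

For instance let `M` be a closed aspherical manifold, and let `S₁`, `S₂` be two families of
`π₁`-injective closed submanifolds of codimension one, in general position. Then `π = π₁(M)` acts on the
two dual trees, and the groups of the elements which fix `x` and `y` are the intersections of conjugates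
of the fundamental groups of the components of `M ∖ S₁` and `M ∖ S₂`. In (1) each of these intersections
has to be detected by some homomorphism of `π` to a group in `C`; the fundamental groups of the components
themselves may be arbitrary.

That the groups `G` are in `C` is the theorem `MP_98022b_gt.TwoTrees` of helper909, handed in for
the L-theoretic assembly map of all groups (the proof is outlined there); here it is applied to Poincaré
duality groups.
-/

set_option autoImplicit false

namespace Pool.Agent.Results.MP_c13a79_gt.TwoTrees

open Pool.Agent.Y110.FJ (ClosedE)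
open Pool.Agent.R684.FP (FbC)
open Run7.h909.GT Run7.h909.TD Run7.h909.TT Pool.Agent.Run7.h1.SR

theorem result (C : ∀ (G : Type) [Group G], Prop) (hC : ClosedE C) (hF : FbC C) (hcat : CatC C)
    (Iso : ∀ (π : Type) [Group π], Prop)
    (hI : ∀ (π : Type) [Group π], C π → IsPD π → Iso π) :
    -- (1) actions on two trees
    (∀ (G V₁ V₂ : Type) [Group G] [MulAction G V₁] [MulAction G V₂] (T₁ : SimpleGraph V₁)
      (T₂ : SimpleGraph V₂), T₁.IsTree → T₂.IsTree →
      (∀ (g : G) (x y : V₁), T₁.Adj x y → T₁.Adj (g • x) (g • y)) →
      (∀ (g : G) (x y : V₂), T₂.Adj x y → T₂.Adj (g • x) (g • y)) →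
      (∀ (x : V₁) (y : V₂), ∃ (P : Type) (_ : Group P) (f : G →* P), C P ∧
        ∀ g : G, g • x = x → g • y = y → f g = 1 → g = 1) → PDSub Iso G) ∧
    -- (2) actions on two trees, free actions of a normal subgroup on the product
    (∀ (G V₁ V₂ : Type) [Group G] [MulAction G V₁] [MulAction G V₂] (T₁ : SimpleGraph V₁)
      (T₂ : SimpleGraph V₂) (N : Subgroup G) [N.Normal], T₁.IsTree → T₂.IsTree →
      (∀ (g : G) (x y : V₁), T₁.Adj x y → T₁.Adj (g • x) (g • y)) →
      (∀ (g : G) (x y : V₂), T₂.Adj x y → T₂.Adj (g • x) (g • y)) → C (G ⧸ N) →
      (∀ g ∈ N, ∀ (x : V₁) (y : V₂), g • x = x → g • y = y → g = 1) → PDSub Iso G) ∧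
    -- (3) two representations over rings with a degree function
    (∀ (R₁ R₂ G : Type) [CommRing R₁] [CommRing R₂] [Nontrivial R₁] [Nontrivial R₂] [Group G]
      (deg₁ : R₁ → WithBot ℤ) (deg₂ : R₂ → WithBot ℤ), IsDeg deg₁ → IsDeg deg₂ →
      ∀ (ρ₁ : G →* GL (Fin 2) R₁) (ρ₂ : G →* GL (Fin 2) R₂),
      (∀ n : ℕ, ∃ (P : Type) (_ : Group P) (f : G →* P), C P ∧ ∀ g : G,
        (∀ i j, deg₁ (ρ₁ g i j) ≤ n) → (∀ i j, deg₂ (ρ₂ g i j) ≤ n) →
        deg₁ (ρ₁ g : Matrix (Fin 2) (Fin 2) R₁).det = 0 →
        deg₂ (ρ₂ g : Matrix (Fin 2) (Fin 2) R₂).det = 0 → f g = 1 → g = 1) → PDSub Iso G) := by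
  refine ⟨?_, ?_, ?_⟩
  · intro G V₁ V₂ _ _ _ T₁ T₂ h1 h2 a1 a2 h
    exact pd_sub hC hI (two_trees hC hF hcat h1 h2 a1 a2 h)
  · intro G V₁ V₂ _ _ _ T₁ T₂ N _ h1 h2 a1 a2 hN h
    refine pd_sub hC hI (two_trees hC hF hcat h1 h2 a1 a2 fun x y =>
      ⟨G ⧸ N, inferInstance, QuotientGroup.mk' N, hN, fun g hx hy hg => ?_⟩)
    exact h g ((QuotientGroup.eq_one_iff g).1 hg) x y hx hy
  · intro R₁ R₂ G _ _ _ _ _ deg₁ deg₂ h1 h2 ρ₁ ρ₂ h
    exact pd_sub hC hI (two_rep hC hF hcat h1 h2 ρ₁ ρ₂ h)

end Pool.Agent.Results.MP_c13a79_gt.TwoTrees
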